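import Pool.Agent.Results.MP_651af7_nt.PointsOfAnyDegree

/-!
# The heights of the exceptional points of degree `r` in Vojta's inequality on the projective line

The number of the (multiplicative) heights of the exceptional points, from the starting theorem
`PointsOfAnyDegree`.
-/

set_option autoImplicit false

namespace Pool.Agent.T9h59.VJ

open Polynomial IntermediateField
open Pool.Agent.Results.MP_651af7_nt
open PointsOfAnyDegree (height lambdaInf lambdaP logDisc Pt)

/-- `x` is an algebraic number of degree `r` with minimal polynomial `f` over `ℤ`, not in the support of the divisor given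
by `G`. -/
def IsPt (G : ℤ[X]) (r : ℕ) (x : ℂ) (f : ℤ[X]) : Prop :=
  Irreducible f ∧ f.natDegree = r ∧ aeval x f = 0 ∧ aeval x G ≠ 0

/-- The multiplicative height `H(x)` of a root `x` of `f`. -/
noncomputable def mheight (f : ℤ[X]) : ℝ := Real.exp (height f)

/-- Vojta's inequality for the point `x` with minimal polynomial `f`. -/
def Ineq (G : ℤ[X]) (q : ℕ) (S : Finset ℕ) (ε c : ℝ) (x : ℂ) (f : ℤ[X]) : Prop :=
  lambdaInf G q f + ∑ p ∈ S, lambdaP p G q f + (-2) * height f - logDisc x ≤ ε * height f + c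

/-- the numbers `H(x)^b`, `x` an exceptional point of degree `r` -/
def Exc (G : ℤ[X]) (r q : ℕ) (S : Finset ℕ) (ε c b : ℝ) : Set ℝ :=
  {t : ℝ | ∃ (x : ℂ) (f : ℤ[X]), IsPt G r x f ∧ ¬ Ineq G q S ε c x f ∧ mheight f ^ b = t}

/-- the exponent of the starting theorem -/
noncomputable def expo (r : ℕ) (ε : ℝ) : ℝ := (r : ℝ) ^ 2 * (2 * r - 2 - min ε 2) / (2 * (r + 1))

lemma expo_nonneg {r : ℕ} (hr : 2 ≤ r) (ε : ℝ) : 0 ≤ expo r ε := by
  have h1 : (2 : ℝ) ≤ r := by exact_mod_cast hr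
  have h2 : min ε 2 ≤ 2 := min_le_right _ _
  unfold expo
  apply div_nonneg (mul_nonneg (by positivity) (by linarith)) (by linarith)

lemma mahler_neg (f : ℂ[X]) : (-f).mahlerMeasure = f.mahlerMeasure := by
  have h : -f = C (-1) * f := by simp
  rw [h, mahlerMeasure_mul, mahlerMeasure_const]
  simp

lemma height_neg (f : ℤ[X]) : height (-f) = height f := by
  unfold height
  rw [natDegree_neg, Polynomial.map_neg, mahler_neg]

/-- the height depends only on the point -/
lemma height_eq {x : ℂ} {f g : ℤ[X]} (hf : Irreducible f) (hg : Irreducible g) (hfd : 1 ≤ f.natDegree)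
    (hgd : 1 ≤ g.natDegree) (hxf : aeval x f = 0) (hxg : aeval x g = 0) : height f = height g := by
  have hfp : f.IsPrimitive := hf.isPrimitive (by omega)
  have hgp : g.IsPrimitive := hg.isPrimitive (by omega)
  have hfi : Irreducible (f.map (algebraMap ℤ ℚ)) :=
    (hfp.irreducible_iff_irreducible_map_fraction_map).1 hf
  have hm1 : minpoly ℚ x ∣ f.map (algebraMap ℤ ℚ) := minpoly.dvd ℚ x (by rw [aeval_map_algebraMap]; exact hxf)
  have hm2 : minpoly ℚ x ∣ g.map (algebraMap ℤ ℚ) := minpoly.dvd ℚ x (by rw [aeval_map_algebraMap]; exact hxg)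
  have hint : IsIntegral ℚ x := by
    rw [← isAlgebraic_iff_isIntegral]
    exact ⟨f.map (algebraMap ℤ ℚ), hfi.ne_zero, by rw [aeval_map_algebraMap]; exact hxf⟩
  have hass : Associated (minpoly ℚ x) (f.map (algebraMap ℤ ℚ)) :=
    (minpoly.irreducible hint).associated_of_dvd hfi hm1
  have hdvd : f.map (algebraMap ℤ ℚ) ∣ g.map (algebraMap ℤ ℚ) := hass.symm.dvd.trans hm2
  have hd : f ∣ g := (IsPrimitive.Int.dvd_iff_map_cast_dvd_map_cast f g hfp).2 hdvd
  obtain ⟨u, hu⟩ := hf.associated_of_dvd hg hd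
  obtain ⟨r, hr, hru⟩ := Polynomial.isUnit_iff.1 u.isUnit
  rw [← hu, ← hru]
  rcases Int.isUnit_iff.1 hr with rfl | rfl
  · simp
  · have : f * C (-1 : ℤ) = -f := by simp
    rw [this, height_neg]

theorem height_nonneg {f : ℤ[X]} (hf : f ≠ 0) : 0 ≤ height f := by
  have hM1 : 1 ≤ Pool.Agent.H990R4.VJ.mm f := Pool.Agent.H990R4.VJ.one_le_mm hf
  unfold height
  exact div_nonneg (Real.log_nonneg hM1) (Nat.cast_nonneg _)

theorem count {r q : ℕ} (hr : 2 ≤ r) (hq : 1 ≤ q) {G : ℤ[X]} (hG : Squarefree (G.map (Int.castRingHom ℚ)))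
    (hGq : G.natDegree ≤ q) (hqG : q ≤ G.natDegree + 1) {S : Finset ℕ} (hS : ∀ p ∈ S, p.Prime) {ε : ℝ} (hε : 0 < ε)
    (c : ℝ) {b : ℝ} (hb : 0 < b) (δ : ℝ) (hδ : 0 < δ) :
    ∃ C : ℝ, ∀ X : ℝ, 1 ≤ X → {t | t ∈ Exc G r q S ε c b ∧ t ≤ X}.Finite ∧
      ({t | t ∈ Exc G r q S ε c b ∧ t ≤ X}.ncard : ℝ) ≤ C * X ^ (expo r ε / b + δ) := by
  classical
  obtain ⟨C, hC⟩ := PointsOfAnyDegree.result r q hr hq G hG hGq hqG S hS ε c (δ * b) hε (by positivity)
  refine ⟨C, fun X hX => ?_⟩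
  have hX0 : (0 : ℝ) < X := by linarith
  obtain ⟨T, hT, hall⟩ := hC (X ^ (1 / b)) (Real.one_le_rpow hX (by positivity))
  have hTc : (T.card : ℝ) ≤ C * X ^ (expo r ε / b + δ) := by
    refine hT.trans (le_of_eq ?_)
    rw [← Real.rpow_mul hX0.le]
    congr 2
    unfold expo
    field_simp
  have key : ∀ F : Finset ℝ, (F : Set ℝ) ⊆ {t | t ∈ Exc G r q S ε c b ∧ t ≤ X} → F.card ≤ T.card := by
    intro F hF
    have hch : ∀ t : ℝ, ∃ xf : ℂ × ℤ[X], t ∈ F → (IsPt G r xf.1 xf.2 ∧ ¬ Ineq G q S ε c xf.1 xf.2 ∧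
        mheight xf.2 ^ b = t) := by
      intro t
      by_cases ht : t ∈ F
      · obtain ⟨x, f, h⟩ := (hF ht).1
        exact ⟨(x, f), fun _ => h⟩
      · exact ⟨0, fun h => absurd h ht⟩
    choose g hg using hch
    refine Finset.card_le_card_of_injOn (fun t => (g t).1) ?_ ?_
    · intro t ht
      obtain ⟨⟨h1, h2, h3, h4⟩, h5, h6⟩ := hg t ht
      by_contra hcon
      refine h5 (hall (g t).1 (g t).2 ⟨h1, h2, h3, ?_, h4⟩ hcon)
      have h7 : mheight (g t).2 ^ b ≤ X := by rw [h6]; exact (hF ht).2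
      have h8 : mheight (g t).2 ≤ X ^ (1 / b) := by
        have h9 : 0 ≤ mheight (g t).2 := (Real.exp_pos _).le
        have h10 := Real.rpow_le_rpow (Real.rpow_nonneg h9 b) h7 (z := 1 / b) (by positivity)
        rwa [← Real.rpow_mul h9, mul_one_div_cancel hb.ne', Real.rpow_one] at h10
      have h11 := Real.log_le_log (Real.exp_pos _) h8
      rwa [Real.log_exp] at h11
    · intro t ht s hs hts
      obtain ⟨⟨h1, h2, h3, h4⟩, h5, h6⟩ := hg t ht
      obtain ⟨⟨k1, k2, k3, k4⟩, k5, k6⟩ := hg s hs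
      have hts' : (g t).1 = (g s).1 := hts
      have h7 : height (g t).2 = height (g s).2 := by
        refine height_eq (x := (g t).1) h1 k1 (by omega) (by omega) h3 ?_
        rw [hts']
        exact k3
      rw [← h6, ← k6]
      unfold mheight
      rw [h7]
  have hfin : {t | t ∈ Exc G r q S ε c b ∧ t ≤ X}.Finite := by
    by_contra hinf
    obtain ⟨F, hF, hF2⟩ := (show {t | t ∈ Exc G r q S ε c b ∧ t ≤ X}.Infinite from hinf).exists_subset_card_eq
      (T.card + 1)
    have h1 := key F hF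
    omega
  refine ⟨hfin, ?_⟩
  rw [Set.ncard_eq_toFinset_card _ hfin]
  have h1 : hfin.toFinset.card ≤ T.card := key _ (by simp)
  have h2 : (hfin.toFinset.card : ℝ) ≤ T.card := by exact_mod_cast h1
  exact h2.trans hTc

end Pool.Agent.T9h59.VJ
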